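import Pool.Agent.H354.BG.Stm

set_option autoImplicit false

/-! Project BG, task SHPB (helper23): shapes of codes, from the product to the shape. -/

namespace Pool.Agent.H23.BG.SHPB

open Pool.Agent.H354.BG
open Pool.Agent.H482R3.EA (W inv ev PP xx evF cond1 cond2 Syl gOf Sys St Near InD Adm Act)
open Pool.Agent.H482R3.EB (tot wp alt rels AR gR TR Tame Symm alt_length map_ev)

/-! ### abstract lemmas on the action -/

section abs

variable {S : Sys} (A : Act S)

lemma adm_pt {s : St S} {m : S.Ln} {q : S.P} {n : ℤ} (hq : S.I q m) (hn : n ≠ 0)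
    (h : Adm S s m (S.x m q ^ n)) : ¬ Near S q s := by
  rcases h with ⟨p, k, hp, hk, hN, he⟩ | ⟨_, _, h3⟩ | ⟨_, p, hp, _, h3⟩
  · by_cases hpq : q = p
    · rw [hpq]; exact hN
    · have := S.L1 m q p n (-k) hq hp hpq (by rw [he, zpow_neg, mul_inv_cancel])
      exact absurd this.1 hn
  · exact absurd rfl (h3 q n hq)
  · exact absurd (by rw [zpow_zero, one_mul]) (h3 q 0 n hq)

lemma act_cancel {ω ω' : A.Ω} {m : S.Ln} {y y' : S.L m} (h : A.act ω' m y' = A.act ω m y) :
    ω' = A.act ω m (y * y'⁻¹) := by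
  rw [← A.act_mul, ← h, A.act_mul, mul_inv_cancel, A.act_one]

lemma pt_last {ω ω' : A.Ω} {m : S.Ln} {q : S.P} {n i : ℤ} (hq : S.I q m) (hn : n ≠ 0)
    (hAdm : Adm S (A.st ω') m (S.x m q ^ n)) (hω : ¬ Near S q (A.st ω))
    (h : A.act ω' m (S.x m q ^ n) = A.act ω m (S.x m q ^ i)) : ω' = ω := by
  have h1 := act_cancel A h
  rw [← zpow_sub] at h1
  by_cases hin : i = n
  · rw [hin, sub_self, zpow_zero, A.act_one] at h1; exact h1
  · exfalso
    have h3 := A.st_pt ω m q (i - n) hq (sub_ne_zero.2 hin) hω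
    have h4 := adm_pt hq hn hAdm
    apply h4
    rw [h1, h3]
    exact ⟨m, hq, hq⟩

lemma ln_last {ω ω' : A.Ω} {m : S.Ln} {y y' : S.L m}
    (hAdm : Adm S (A.st ω') m y') (hω : A.st ω = .none)
    (h : A.act ω' m y' = A.act ω m y) : y' = y ∧ ω' = ω := by
  have h1 := act_cancel A h
  by_cases ht : y * y'⁻¹ = 1
  · rw [ht, A.act_one] at h1
    exact ⟨(mul_inv_eq_one.1 ht).symm, h1⟩
  · exfalso
    have hN : ∀ q, ¬ Near S q (A.st ω) := by rw [hω]; exact fun q h => h
    have hI : ¬ InD S m (A.st ω) := by rw [hω]; exact fun h => h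
    by_cases hp : ∃ (r : S.P) (a : ℤ), S.I r m ∧ y * y'⁻¹ = S.x m r ^ a
    · obtain ⟨r, a, hr, ha⟩ := hp
      have ha0 : a ≠ 0 := by rintro rfl; exact ht (by rw [ha, zpow_zero])
      have h3 := A.st_pt ω m r a hr ha0 (hN r)
      rw [← ha, ← h1] at h3
      rw [h3] at hAdm
      rcases hAdm with ⟨p, k, hp, hk, hN', he⟩ | ⟨h4, _, _⟩ | ⟨h4, _⟩
      · exact hN' ⟨m, hr, hp⟩
      · exact h4 hr
      · exact h4 hr
    · have h3 := A.st_ln ω m (y * y'⁻¹) hI (fun q _ => hN q)
        (fun r a hr hra => hp ⟨r, a, hr, hra⟩)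
      rw [← h1] at h3
      rw [h3] at hAdm
      rcases hAdm with ⟨p, k, hp, hk, hN', he⟩ | ⟨h4, _, _⟩ | ⟨h4, _⟩
      · exact hN' hp
      · exact h4 rfl
      · exact h4 rfl

lemma two_ne {m : S.Ln} {p q : S.P} {j i : ℤ} (hp : S.I p m) (hq : S.I q m) (hpq : p ≠ q)
    (hj : j ≠ 0) (hi : i ≠ 0) (r : S.P) (a : ℤ) (hr : S.I r m) :
    S.x m p ^ j * S.x m q ^ i ≠ S.x m r ^ a := by
  intro h
  by_cases h1 : r = p
  · subst h1
    have : S.x m r ^ (-a + j) * S.x m q ^ i = 1 := by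
      rw [zpow_add, mul_assoc, h, ← zpow_add, neg_add_cancel, zpow_zero]
    exact hi (S.L1 m r q _ _ hr hq hpq this).2
  · by_cases h2 : r = q
    · subst h2
      have : S.x m p ^ j * S.x m r ^ (i + -a) = 1 := by
        rw [zpow_add, ← mul_assoc, h, ← zpow_add, add_neg_cancel, zpow_zero]
      exact hj (S.L1 m p r _ _ hp hr hpq this).1
    · have : S.x m p ^ j * S.x m q ^ i * S.x m r ^ (-a) = 1 := by
        rw [h, ← zpow_add, add_neg_cancel, zpow_zero]
      exact hj (S.L2 m p q r _ _ _ hp hq hr hpq (fun e => h2 e.symm) (fun e => h1 e.symm) this).1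

end abs

/-! ### runs -/

section run

variable (D : Dat) (U : Finset (Fin D.r)) (b : Fin D.r) (h : SysOK D U b)
  (A : Act (sysX D U b h))

/-- the action of a block line -/
noncomputable def aQ (ω : A.Ω) (C : D.A ⧸ H0 D U b) (y : par D {b}) : A.Ω :=
  A.act ω (Sum.inl C : Ln D U b) y

/-- the action of the block line of `g` -/
noncomputable def aP (ω : A.Ω) (g : D.A) (y : par D {b}) : A.Ω :=
  aQ D U b h A ω (QuotientGroup.mk g) y

lemma aP_one (ω : A.Ω) (g : D.A) : aP D U b h A ω g 1 = ω := A.act_one ω _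

lemma aP_mul (ω : A.Ω) (g : D.A) (y y' : par D {b}) :
    aP D U b h A (aP D U b h A ω g y) g y' = aP D U b h A ω g (y * y') :=
  A.act_mul ω (Sum.inl (QuotientGroup.mk g) : Ln D U b) y y'

lemma step_b (ω : A.Ω) (g : D.A) (v : Fin D.n) (hv : D.β v = b) (s : Bool) :
    stepX D U b h A (ω, g) (v, s) = (aP D U b h A ω g (rhoP D b (lt D (v, s))), g) := by
  have h1 : rho D {b}ᶜ (lt D (v, s)) = 1 := by
    rw [rho_lt, if_neg]
    rw [Finset.mem_compl, Finset.mem_singleton]
    exact fun h => h hv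
  unfold stepX aP aQ
  rw [h1, mul_one]

lemma run_nil (x : A.Ω × D.A) : runX D U b h A [] x = x := rfl

lemma run_cons (a : Fin D.n × Bool) (u : W (Fin D.n)) (x : A.Ω × D.A) :
    runX D U b h A (a :: u) x = runX D U b h A u (stepX D U b h A x a) := rfl

lemma run_rep (v : Fin D.n) (hv : D.β v = b) (s : Bool) (n : ℕ) (ω : A.Ω) (g : D.A) :
    runX D U b h A (List.replicate n (v, s)) (ω, g) =
      (aP D U b h A ω g (rhoP D b (lt D (v, s)) ^ n), g) := by
  induction n generalizing ω with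
  | zero => rw [List.replicate_zero, run_nil, pow_zero, aP_one]
  | succ n ih => rw [List.replicate_succ, run_cons, step_b D U b h A ω g v hv s, ih, aP_mul,
      pow_succ']

lemma run_wp (v : Fin D.n) (hv : D.β v = b) (i : ℤ) (ω : A.Ω) (g : D.A) :
    runX D U b h A (wp v i) (ω, g) =
      (aP D U b h A ω g (rhoP D b (gR D.m v) ^ i), g) := by
  unfold wp
  by_cases hi : 0 ≤ i
  · rw [if_pos hi, run_rep D U b h A v hv, lt_true, ← zpow_natCast, Int.toNat_of_nonneg hi]
  · rw [if_neg hi, run_rep D U b h A v hv, lt_false, map_inv, inv_pow, ← zpow_natCast,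
      Int.toNat_of_nonneg (by omega), zpow_neg, inv_inv]

lemma run_eq (hact : S_ACTX) (hsnd : S_SND) (hb : b ∉ U) (u u' : W (Fin D.n))
    (he : gEl D u = gEl D u') (x : A.Ω × D.A) :
    runX D U b h A u x = runX D U b h A u' x := by
  have h1 : gEl D (u ++ inv u) = 1 := by rw [gEl_append, gEl_inv, mul_inv_cancel]
  have h2 : gEl D (inv u ++ u') = 1 := by rw [gEl_append, gEl_inv, he, inv_mul_cancel]
  have h3 := hact D U b hb h A _ h1 x
  have h4 := hact D U b hb h A _ h2 (runX D U b h A u x)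
  rw [← h4, (hsnd D U b h A (inv u) (runX D U b h A u x)).2.2 u',
    ← (hsnd D U b h A u x).2.2 (inv u), h3]

/-- the word `h v^i h⁻¹` acts -/
lemma run_conj (hsnd : S_SND) (hb : b ∉ U) (v : Fin D.n) (hv : D.β v = b) (i : ℤ)
    (u : W (Fin D.n)) (ω : A.Ω) :
    runX D U b h A (flt D U u ++ wp v i ++ inv (flt D U u)) (ω, 1) =
      (aP D U b h A ω (rho D U (gEl D u)) (rhoP D b (gR D.m v) ^ i), 1) := by
  have hl : ∀ a ∈ flt D U u, D.β a.1 ≠ b := by
    intro a ha hab
    unfold flt at ha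
    rw [List.mem_filter] at ha
    have := of_decide_eq_true ha.2
    rw [hab] at this
    exact hb this
  have hl' : ∀ a ∈ inv (flt D U u), D.β a.1 ≠ b := by
    intro a ha
    unfold inv at ha
    rw [List.mem_reverse, List.mem_map] at ha
    obtain ⟨c, hc, rfl⟩ := ha
    exact hl c hc
  rw [(hsnd D U b h A (flt D U u ++ wp v i) (ω, 1)).2.2,
    (hsnd D U b h A (flt D U u) (ω, 1)).2.2,
    (hsnd D U b h A (flt D U u) (ω, 1)).2.1 hl]
  dsimp only
  rw [one_mul, run_wp D U b h A v hv, (hsnd D U b h A (inv (flt D U u)) _).2.1 hl']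
  dsimp only
  rw [gEl_inv, mul_inv_cancel, rho_gEl]

end run

/-! ### codes -/

section codes

variable (D : Dat) (U : Finset (Fin D.r)) (b : Fin D.r)

/-- last element -/
def lst : Option (Sy D) → List (Sy D) → Option (Sy D)
  | s, [] => s
  | _, a :: l => lst (some a) l

lemma lst_append (s : Option (Sy D)) (c : List (Sy D)) (a : Sy D) :
    lst D s (c ++ [a]) = some a := by
  induction c generalizing s with
  | nil => rfl
  | cons x c ih => exact ih (some x)

lemma lst_none (c : List (Sy D)) : lst D none c = c.getLast? := by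
  rcases List.eq_nil_or_concat c with rfl | ⟨c', a, rfl⟩
  · rfl
  · rw [List.concat_eq_append, lst_append, List.getLast?_append]
    rfl

lemma VC_append (s : Option (Sy D)) (c : List (Sy D)) (a : Sy D) :
    VC D U b s (c ++ [a]) → VC D U b s c ∧ AdmW D U b (lst D s c) a := by
  induction c generalizing s with
  | nil => intro hh; exact ⟨trivial, hh.1⟩
  | cons x c ih =>
    intro hh
    obtain ⟨h1, h2⟩ := ih (some x) hh.2
    exact ⟨⟨hh.1, h1⟩, h2⟩

variable (h : SysOK D U b) (A : Act (sysX D U b h))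

lemma om_append (c : List (Sy D)) (a : Sy D) :
    om D U b h A (c ++ [a]) = A.act (om D U b h A c) (lyO D U b a).1 (lyO D U b a).2 := by
  unfold om
  rw [List.foldl_append]
  rfl

/-- everything about the last syllable -/
lemma last_syl (hom : S_OM) (hads : S_ADSX) (hb : b ∉ U) (c : List (Sy D)) (a : Sy D)
    (hc : VC D U b none (c ++ [a])) :
    VC D U b none c ∧ okS D U b a ∧ AdmW D U b (c.getLast?) a ∧
      Adm (sysX D U b h) (A.st (om D U b h A c)) (lyO D U b a).1 (lyO D U b a).2 ∧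
      A.st (om D U b h A (c ++ [a])) = stO D U b h (some a) := by
  obtain ⟨h1, h2⟩ := VC_append D U b none c a hc
  rw [lst_none] at h2
  obtain ⟨k1, k2, _⟩ := (hom D U b hb h A).1 _ hc
  obtain ⟨k3, k4, _⟩ := (hom D U b hb h A).1 _ h1
  have hok : okO D U b c.getLast? := by
    cases hl : c.getLast? with
    | none => trivial
    | some x => exact k3 x (List.mem_of_getLast? hl)
  refine ⟨h1, k1 a (by simp), h2, ?_, ?_⟩
  · rw [k4]
    exact hads D U b hb h _ a hok h2
  · rw [k2, ← lst_none, lst_append]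

lemma st_nil : A.st (om D U b h A []) = .none := A.st_one

lemma stO_pt (g : W (Fin D.n)) (v : Fin D.n) (s : Bool) (n : ℕ) (hv : D.β v = b) :
    stO D U b h (some (.inl (g, v, s, n))) =
      .pt ((QuotientGroup.mk (gEl D g), ⟨v, hv⟩) : Pt D U b) := by
  unfold stO
  exact dif_pos hv

lemma stO_bl (g y : W (Fin D.n)) :
    stO D U b h (some (.inr (.inl (g, y)))) =
      .ln (Sum.inl (QuotientGroup.mk (gEl D g)) : Ln D U b) := rfl

lemma stO_cl (g : W (Fin D.n)) (v w : Fin D.n) (y : W ℕ) (hc : okL D U b v w) :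
    stO D U b h (some (.inr (.inr (g, v, w, y)))) =
      .ln (Sum.inr ⟨(⟨(v, w), hc⟩ : LI D U b), QuotientGroup.mk (gEl D g)⟩ : Ln D U b) := by
  unfold stO
  exact dif_pos hc

lemma lyO_pt (g : W (Fin D.n)) (v : Fin D.n) (s : Bool) (n : ℕ) :
    lyO D U b (.inl (g, v, s, n)) = ⟨(Sum.inl (QuotientGroup.mk (gEl D g)) : Ln D U b),
      (rhoP D b (gR D.m v) ^ (if s then (n : ℤ) else -(n : ℤ)) : par D {b})⟩ := by
  unfold lyO
  cases s
  · simp [lt_false]
  · simp [lt_true]

/-- the last syllable is a point syllable if the state is a point -/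
lemma point_code (hom : S_OM) (hads : S_ADSX) (hb : b ∉ U) (code : List (Sy D))
    (hc : VC D U b none code) (ω : A.Ω) (g0 : D.A) (v : Fin D.n) (hv : D.β v = b) (i : ℤ)
    (hi : i ≠ 0)
    (hN : ¬ Near (sysX D U b h) ((QuotientGroup.mk g0, ⟨v, hv⟩) : Pt D U b) (A.st ω))
    (he : om D U b h A code = aP D U b h A ω g0 (rhoP D b (gR D.m v) ^ i)) :
    ∃ (c : List (Sy D)) (g : W (Fin D.n)) (s : Bool) (n : ℕ), code = c ++ [.inl (g, v, s, n)] ∧
      VC D U b none c ∧ om D U b h A c = ω ∧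
      (QuotientGroup.mk (gEl D g) : D.A ⧸ H0 D U b) = QuotientGroup.mk g0 := by
  have hst : A.st (om D U b h A code) = .pt ((QuotientGroup.mk g0, ⟨v, hv⟩) : Pt D U b) := by
    rw [he]
    exact A.st_pt ω (Sum.inl (QuotientGroup.mk g0) : Ln D U b)
      ((QuotientGroup.mk g0, ⟨v, hv⟩) : Pt D U b) i rfl hi hN
  rcases List.eq_nil_or_concat code with rfl | ⟨c, a, rfl⟩
  · rw [st_nil D U b h A] at hst
    cases hst
  · rw [List.concat_eq_append] at *
    obtain ⟨k1, k2, k3, k4, k5⟩ := last_syl D U b h A hom hads hb c a hc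
    rw [k5] at hst
    rcases a with ⟨g, v', s, n⟩ | ⟨g, y⟩ | ⟨g, v', w, y⟩
    · obtain ⟨hv', hn, _⟩ := k3
      rw [stO_pt D U b h g v' s n hv'] at hst
      have hst' := St.pt.inj hst
      have e1 : (QuotientGroup.mk (gEl D g) : D.A ⧸ H0 D U b) = QuotientGroup.mk g0 :=
        congrArg Prod.fst hst'
      have e2 : v' = v := congrArg (fun p : Pt D U b => p.2.1) hst'
      subst e2
      refine ⟨c, g, s, n, rfl, k1, ?_, e1⟩
      rw [om_append, lyO_pt] at he
      rw [lyO_pt] at k4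
      unfold aP at he
      rw [← e1] at he hN
      exact pt_last A (q := ((QuotientGroup.mk (gEl D g), ⟨v', hv⟩) : Pt D U b))
        (m := (Sum.inl (QuotientGroup.mk (gEl D g)) : Ln D U b)) rfl (by split_ifs <;> omega) k4
        hN he
    · rw [stO_bl D U b h g y] at hst
      cases hst
    · rw [stO_cl D U b h g v' w y k2] at hst
      cases hst

lemma nil_of_one (hom : S_OM) (hads : S_ADSX) (hb : b ∉ U) (c : List (Sy D))
    (hc : VC D U b none c) (hone : om D U b h A c = A.one) : c = [] := by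
  rcases List.eq_nil_or_concat c with rfl | ⟨c', a, rfl⟩
  · rfl
  · exfalso
    rw [List.concat_eq_append] at *
    obtain ⟨k1, k2, k3, k4, k5⟩ := last_syl D U b h A hom hads hb c' a hc
    rw [hone, A.st_one] at k5
    rcases a with ⟨g, v', s, n⟩ | ⟨g, y⟩ | ⟨g, v', w, y⟩
    · rw [stO_pt D U b h g v' s n k2] at k5
      cases k5
    · rw [stO_bl D U b h g y] at k5
      cases k5
    · rw [stO_cl D U b h g v' w y k2] at k5
      cases k5

/-- codes of `h v^i h⁻¹` -/
lemma one_code (hom : S_OM) (hads : S_ADSX) (hb : b ∉ U) (code : List (Sy D))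
    (hc : VC D U b none code) (g0 : D.A) (v : Fin D.n) (hv : D.β v = b) (i : ℤ)
    (he : om D U b h A code = aP D U b h A A.one g0 (rhoP D b (gR D.m v) ^ i)) :
    (code = [] ∧ i = 0) ∨ (i ≠ 0 ∧ ∃ (g : W (Fin D.n)) (s : Bool) (n : ℕ),
      code = [.inl (g, v, s, n)] ∧
      (QuotientGroup.mk (gEl D g) : D.A ⧸ H0 D U b) = QuotientGroup.mk g0) := by
  by_cases hi : i = 0
  · left
    refine ⟨nil_of_one D U b h A hom hads hb code hc ?_, hi⟩
    rw [he, hi, zpow_zero, aP_one]
  · right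
    refine ⟨hi, ?_⟩
    have hN : ¬ Near (sysX D U b h) ((QuotientGroup.mk g0, ⟨v, hv⟩) : Pt D U b) (A.st A.one) := by
      rw [A.st_one]; exact fun h => h
    obtain ⟨c, g, s, n, rfl, hc', hω, hg⟩ :=
      point_code D U b h A hom hads hb code hc A.one g0 v hv i hi hN he
    refine ⟨g, s, n, ?_, hg⟩
    rw [nil_of_one D U b h A hom hads hb c hc' hω]
    rfl

lemma one_code' (hom : S_OM) (hads : S_ADSX) (hb : b ∉ U) (code : List (Sy D))
    (hc : VC D U b none code) (g0 : D.A) (v : Fin D.n) (hv : D.β v = b) (i : ℤ)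
    (he : om D U b h A code = aP D U b h A A.one g0 (rhoP D b (gR D.m v) ^ i)) :
    Sh1 D v code := by
  rcases one_code D U b h A hom hads hb code hc g0 v hv i he with ⟨h1, _⟩ | ⟨_, g, s, n, h1, _⟩
  · exact Or.inl h1
  · exact Or.inr ⟨g, s, n, h1⟩

lemma lyO_cl (g : W (Fin D.n)) (v w : Fin D.n) (y : W ℕ) (hc : okL D U b v w) :
    lyO D U b (.inr (.inr (g, v, w, y))) =
      ⟨(Sum.inr ⟨(⟨(v, w), hc⟩ : LI D U b), QuotientGroup.mk (gEl D g)⟩ : Ln D U b),
          (ev (fun r : ℕ => xx (kk D v w) (((r % kk D v w : ℕ) : ℤ) +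
            eg D (D.β w) (((QuotientGroup.mk (gEl D g) :
              D.A ⧸ Hw D U b w).out)⁻¹ * gEl D g))) y :
            FreeGroup (Fin (kk D v w)))⟩ := by
  unfold lyO
  exact dif_pos hc

/-- the exponent of a representative of `H0` -/
lemma eg_out_one {v w : Fin D.n} (hc : okL D U b v w) :
    eg D (D.β w) ((QuotientGroup.mk 1 : D.A ⧸ H0 D U b).out) = 0 := by
  have h1 : (QuotientGroup.mk ((QuotientGroup.mk 1 : D.A ⧸ H0 D U b).out) : D.A ⧸ H0 D U b) =
      QuotientGroup.mk 1 := Quotient.out_eq' _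
  have h2 := QuotientGroup.eq.1 h1
  rw [mul_one] at h2
  have h3 := eg_H0 D U b hc h2
  rw [eg_inv, neg_eq_zero] at h3
  exact h3

/-- the cross line syllable -/
lemma cross (v w : Fin D.n) (hc : okL D U b v w) (g : W (Fin D.n)) (y : W ℕ) (q : Pt D U b)
    (j i : ℤ)
    (he : (ev (fun r : ℕ => xx (kk D v w) (((r % kk D v w : ℕ) : ℤ) +
            eg D (D.β w) (((QuotientGroup.mk (gEl D g) :
              D.A ⧸ Hw D U b w).out)⁻¹ * gEl D g))) y : FreeGroup (Fin (kk D v w))) =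
      xx (kk D v w) (eg D (D.β w) (((QuotientGroup.mk (gEl D g) : D.A ⧸ Hw D U b w).out)⁻¹ *
        ((QuotientGroup.mk 1 : D.A ⧸ H0 D U b).out))) ^ j *
      xx (kk D v w) (eg D (D.β w) (((QuotientGroup.mk (gEl D g) : D.A ⧸ Hw D U b w).out)⁻¹ *
        q.1.out)) ^ i) :
    ¬ cond2 (kk D v w) (- eg D (D.β w) (gEl D g)) y := by
  have hk : 0 < kk D v w := by have := (kk_spec D hc).1; omega
  set d : ℤ := eg D (D.β w) (((QuotientGroup.mk (gEl D g) :
              D.A ⧸ Hw D U b w).out)⁻¹ * gEl D g) with hd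
  obtain ⟨σ, hσ⟩ := Pool.Agent.H482R3.EB.Asm.xs (kk D v w) d hk
  have hy : (ev (fun r : ℕ => xx (kk D v w) (((r % kk D v w : ℕ) : ℤ) + d)) y :
      FreeGroup (Fin (kk D v w))) = σ (evF (kk D v w) y) := by
    unfold evF
    rw [show σ (ev (fun r : ℕ => xx (kk D v w) ((r % kk D v w : ℕ) : ℤ)) y)
      = σ.toMonoidHom (ev (fun r : ℕ => xx (kk D v w)
        ((r % kk D v w : ℕ) : ℤ)) y) from rfl, map_ev]
    congr 1
    funext r
    exact (hσ _).symm
  have h1 : eg D (D.β w) (((QuotientGroup.mk (gEl D g) : D.A ⧸ Hw D U b w).out)⁻¹ *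
        ((QuotientGroup.mk 1 : D.A ⧸ H0 D U b).out)) = - eg D (D.β w) (gEl D g) + d := by
    rw [hd, eg_mul, eg_mul, eg_out_one D U b hc]
    ring
  set e2 : ℤ := eg D (D.β w) (((QuotientGroup.mk (gEl D g) : D.A ⧸ Hw D U b w).out)⁻¹ *
        q.1.out) with he2
  rw [hy, h1, show e2 = (e2 - d) + d by ring, ← hσ, ← hσ, ← map_zpow, ← map_zpow, ← map_mul]
    at he
  have h2 := σ.injective he
  intro hcon
  exact hcon _ _ _ h2

/-- codes of `v^j h v^i h⁻¹` -/
lemma two_code (hom : S_OM) (hads : S_ADSX) (hb : b ∉ U) (code : List (Sy D))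
    (hc : VC D U b none code) (h0 : D.A) (v : Fin D.n) (hv : D.β v = b) (j i : ℤ)
    (he : om D U b h A code = aP D U b h A (aP D U b h A A.one 1 (rhoP D b (gR D.m v) ^ j)) h0
      (rhoP D b (gR D.m v) ^ i)) :
    Sh2 D U b v code := by
  by_cases hi : i = 0
  · left
    rw [hi, zpow_zero, aP_one] at he
    exact one_code' D U b h A hom hads hb code hc 1 v hv j he
  by_cases hj : j = 0
  · left
    rw [hj, zpow_zero, aP_one] at he
    exact one_code' D U b h A hom hads hb code hc h0 v hv i he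
  by_cases hpq : (QuotientGroup.mk h0 : D.A ⧸ H0 D U b) = QuotientGroup.mk 1
  · left
    have e : aP D U b h A (aP D U b h A A.one 1 (rhoP D b (gR D.m v) ^ j)) h0
        (rhoP D b (gR D.m v) ^ i) = aP D U b h A (aP D U b h A A.one 1 (rhoP D b (gR D.m v) ^ j)) 1
        (rhoP D b (gR D.m v) ^ i) := by
      show aQ D U b h A _ (QuotientGroup.mk h0) _ = aQ D U b h A _ (QuotientGroup.mk 1) _
      rw [hpq]
    rw [e, aP_mul, ← zpow_add] at he
    exact one_code' D U b h A hom hads hb code hc 1 v hv _ he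
  have hp1 : ¬ Near (sysX D U b h) ((QuotientGroup.mk 1, ⟨v, hv⟩) : Pt D U b) (A.st A.one) := by
    rw [A.st_one]; exact fun h => h
  have hst1 : A.st (aP D U b h A A.one 1 (rhoP D b (gR D.m v) ^ j)) =
      .pt ((QuotientGroup.mk 1, ⟨v, hv⟩) : Pt D U b) :=
    A.st_pt A.one (Sum.inl (QuotientGroup.mk 1) : Ln D U b)
      ((QuotientGroup.mk 1, ⟨v, hv⟩) : Pt D U b) j rfl hj hp1
  by_cases hN : Near (sysX D U b h) ((QuotientGroup.mk h0, ⟨v, hv⟩) : Pt D U b)
      (.pt ((QuotientGroup.mk 1, ⟨v, hv⟩) : Pt D U b))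
  · right; right
    obtain ⟨m, hpm, hqm⟩ := hN
    -- the product on the line `m`
    have e1 : aP D U b h A A.one 1 (rhoP D b (gR D.m v) ^ j) = A.act A.one m
        ((sysX D U b h).x m ((QuotientGroup.mk 1, ⟨v, hv⟩) : Pt D U b) ^ j) :=
      A.act_pt A.one (Sum.inl (QuotientGroup.mk 1) : Ln D U b) m
        ((QuotientGroup.mk 1, ⟨v, hv⟩) : Pt D U b) j rfl hpm
    have e2 : ∀ ω : A.Ω, aP D U b h A ω h0 (rhoP D b (gR D.m v) ^ i) = A.act ω m
        ((sysX D U b h).x m ((QuotientGroup.mk h0, ⟨v, hv⟩) : Pt D U b) ^ i) := fun ω =>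
      A.act_pt ω (Sum.inl (QuotientGroup.mk h0) : Ln D U b) m
        ((QuotientGroup.mk h0, ⟨v, hv⟩) : Pt D U b) i rfl hqm
    rw [e2, e1, A.act_mul] at he
    have hne : ((QuotientGroup.mk 1, ⟨v, hv⟩) : Pt D U b) ≠ (QuotientGroup.mk h0, ⟨v, hv⟩) :=
      fun hh => hpq (congrArg Prod.fst hh).symm
    have hst : A.st (om D U b h A code) = .ln m := by
      rw [he]
      refine A.st_ln A.one m _ ?_ ?_ (fun r a hr => two_ne hpm hqm hne hj hi r a hr)
      · rw [A.st_one]; exact fun h => h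
      · intro q _; rw [A.st_one]; exact fun h => h
    rcases List.eq_nil_or_concat code with rfl | ⟨c, a, rfl⟩
    · rw [st_nil D U b h A] at hst
      cases hst
    rw [List.concat_eq_append] at *
    obtain ⟨k1, k2, k3, k4, k5⟩ := last_syl D U b h A hom hads hb c a hc
    rw [k5] at hst
    rcases a with ⟨g, v', s, n⟩ | ⟨g, y⟩ | ⟨g, v', w, y⟩
    · rw [stO_pt D U b h g v' s n k2] at hst
      cases hst
    · rw [stO_bl D U b h g y] at hst
      have hst' := St.ln.inj hst
      subst hst'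
      exfalso
      apply hpq
      have h1 : (QuotientGroup.mk 1 : D.A ⧸ H0 D U b) = QuotientGroup.mk (gEl D g) := hpm
      have h2 : (QuotientGroup.mk h0 : D.A ⧸ H0 D U b) = QuotientGroup.mk (gEl D g) := hqm
      rw [h1, h2]
    · rw [stO_cl D U b h g v' w y k2] at hst
      have hst' := St.ln.inj hst
      subst hst'
      rw [om_append, lyO_cl D U b g v' w y k2] at he
      rw [lyO_cl D U b g v' w y k2] at k4
      obtain ⟨hY, hω⟩ := ln_last A (m := (Sum.inr ⟨(⟨(v', w), k2⟩ : LI D U b),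
        QuotientGroup.mk (gEl D g)⟩ : Ln D U b)) k4 A.st_one he
      have hvv : v = v' := hpm.1
      subst hvv
      obtain ⟨_, g1, hg1, hg2⟩ := hpm
      refine ⟨g, w, y, ?_, ?_, ?_⟩
      · rw [nil_of_one D U b h A hom hads hb c k1 hω]
        rfl
      · -- the base point is on the line
        have h1 : g1 ∈ H0 D U b := by
          have := QuotientGroup.eq.1 hg1
          rwa [inv_one, one_mul] at this
        have h2 : (gEl D g)⁻¹ * g1 ∈ Hw D U b w := QuotientGroup.eq.1 hg2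
        obtain ⟨t, u, hu, ht⟩ := (mem_Hw D U b).1 h2
        refine ⟨t, u * (rho D U g1)⁻¹, ?_, ?_⟩
        · exact Subgroup.mul_mem _ (par_mono D (pZ_sub D _ _) hu)
            (Subgroup.inv_mem _ ((mem_H0 D U b).1 h1))
        · rw [gEl_nil, mul_one, ← mul_assoc, ← ht, map_mul, mul_inv_cancel_right]
      · exact cross D U b v w k2 g y ((QuotientGroup.mk h0, ⟨v, hv⟩) : Pt D U b) j i hY
  · right; left
    have hN' : ¬ Near (sysX D U b h) ((QuotientGroup.mk h0, ⟨v, hv⟩) : Pt D U b)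
        (A.st (aP D U b h A A.one 1 (rhoP D b (gR D.m v) ^ j))) := by
      rw [hst1]; exact hN
    obtain ⟨c, g, s, n, rfl, hc', hω, hg⟩ :=
      point_code D U b h A hom hads hb code hc _ h0 v hv i hi hN' he
    rcases one_code D U b h A hom hads hb c hc' 1 v hv j hω with ⟨_, h1⟩ | ⟨_, g1, s1, n1, h1, h2⟩
    · exact absurd h1 hj
    · subst h1
      refine ⟨g1, s1, n1, g, s, n, rfl, ?_⟩
      have h3 := QuotientGroup.eq.1 h2
      unfold sameP
      rw [gEl_nil]
      exact h3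

end codes

theorem t_SHPB (hom : S_OM) (hads : S_ADSX) (hact : S_ACTX) (hsnd : S_SND) :
    ∀ (D : Dat) (U : Finset (Fin D.r)) (b : Fin D.r), b ∉ U → SysOK D U b →
  ∀ (v : Fin D.n), D.β v = b → ∀ code : List (Sy D), VC D U b none code →
  ((∃ (i : ℤ) (h : D.A), h ∈ par D U ∧
      gEl D (code.flatMap (valS D U b)) = h * gR D.m v ^ i * h⁻¹) → Sh1 D v code) ∧
  ((∃ (j i : ℤ) (h : D.A), h ∈ par D U ∧
      gEl D (code.flatMap (valS D U b)) = gR D.m v ^ j * h * gR D.m v ^ i * h⁻¹) →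
    Sh2 D U b v code) := by
  intro D U b hb h v hv code hc
  obtain ⟨A⟩ := Pool.Agent.H482R3.EB.Asm.nft (sysX D U b h)
  obtain ⟨_, _, hrun⟩ := (hom D U b hb h A).1 code hc
  constructor
  · rintro ⟨i, g, hg, he⟩
    obtain ⟨u, rfl⟩ := gEl_surj D g
    have hg' : gEl D (flt D U u) = gEl D u := by rw [← rho_gEl]; exact hg
    have h1 := run_eq D U b h A hact hsnd hb (code.flatMap (valS D U b))
      (flt D U u ++ wp v i ++ inv (flt D U u))
      (by rw [he, gEl_append, gEl_append, gEl_inv, gEl_wp, hg']) (A.one, 1)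
    rw [hrun, run_conj D U b h A hsnd hb v hv i u A.one] at h1
    exact one_code' D U b h A hom hads hb code hc _ v hv i (congrArg Prod.fst h1)
  · rintro ⟨j, i, g, hg, he⟩
    obtain ⟨u, rfl⟩ := gEl_surj D g
    have hg' : gEl D (flt D U u) = gEl D u := by rw [← rho_gEl]; exact hg
    have h1 := run_eq D U b h A hact hsnd hb (code.flatMap (valS D U b))
      (wp v j ++ (flt D U u ++ wp v i ++ inv (flt D U u)))
      (by rw [he, gEl_append, gEl_append, gEl_append, gEl_inv, gEl_wp, gEl_wp, hg']; group)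
      (A.one, 1)
    rw [hrun, (hsnd D U b h A (wp v j) (A.one, 1)).2.2, run_wp D U b h A v hv,
      run_conj D U b h A hsnd hb v hv i u] at h1
    exact two_code D U b h A hom hads hb code hc _ v hv j i (congrArg Prod.fst h1)

end Pool.Agent.H23.BG.SHPB
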